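import Pool.Agent.Helper58.AJ.D
import Pool.Agent.Helper12.AJ.BC

/-!
# Growth of the number of models: the decomposition
-/

set_option autoImplicit false

namespace Pool.Agent.Helper53.AJ

open FirstOrder Pool.Agent.Helper20.Spectra Pool.Agent.Helper58.QD Pool.Agent.Helper14.SS

variable {S : Type} {ar : S → ℕ}

/-- D: the decomposition -/
theorem dec_of {V : Type} [Finite V] {R : Interp S ar V} {r k N C : ℕ} (hr : ∀ s, ar s ≤ r)
    (hN : 2 * k + r + 4 ≤ N) (hk : 1 ≤ k) (hC : Nat.card (Quot (Rl R k N)) ≤ C) : Dec R k C :=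
  dec_of_aux (fun _ hw _ _ _ hu h => max_of hr hN hw hu h)
    (fun _ hu => exists_max (by omega) hu) hk hC

end Pool.Agent.Helper53.AJ
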