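import Pool.Agent.Helper83.FM.Aut

/-!
# Numerics for the number of equivalence relations
-/

set_option autoImplicit false

namespace Pool.Agent.Helper58.AJ

lemma two_pow_ge (a : ℕ) (ha : 20 ≤ a) : 1296 * a ^ 2 ≤ 2 ^ a := by
  induction a, ha using Nat.le_induction with
  | base => norm_num
  | succ a ha ih =>
    have h1 : 2 ^ (a + 1) = 2 * 2 ^ a := by ring
    have h2 : (a + 1) ^ 2 ≤ 2 * a ^ 2 := by nlinarith
    rw [h1]
    omega

lemma log_bound {L a : ℕ} (ha : a = Nat.log 2 (36 * L) + 1) (hL : 20000 ≤ L) :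
    36 * L < 2 ^ a ∧ 9 * a ^ 2 * L ≤ (L - 1) ^ 2 := by
  have h1 : 36 * L < 2 ^ a := by
    rw [ha]
    exact Nat.lt_pow_succ_log_self (by norm_num) _
  have h2 : 2 ^ (a - 1) ≤ 36 * L := by
    rw [ha, Nat.add_sub_cancel]
    exact Nat.pow_log_le_self 2 (by omega)
  have h3 : 20 ≤ a := by
    by_contra h
    have h4 : 2 ^ a ≤ 2 ^ 19 := Nat.pow_le_pow_right (by norm_num) (by omega)
    norm_num at h4
    omega
  have h4 := two_pow_ge a h3
  have h5 : 2 ^ a = 2 * 2 ^ (a - 1) := by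
    rw [← pow_succ']
    congr 1
    omega
  have h6 : 18 * a ^ 2 ≤ L := by omega
  refine ⟨h1, ?_⟩
  obtain ⟨l, rfl⟩ : ∃ l, L = l + 1 := ⟨L - 1, by omega⟩
  rw [Nat.add_sub_cancel]
  have h7 : 18 * a ^ 2 * (l + 1) ≤ (l + 1) * (l + 1) := Nat.mul_le_mul_right _ h6
  nlinarith

lemma term_le {n m L : ℕ} (hL : L = Nat.log 2 n + 1) (hL2 : 20000 ≤ L) (hn : 1 ≤ n)
    (hm : m ≤ n) : (36 * L) ^ n * m ^ (2 * (n - m)) ≤ n ^ (2 * n) := by
  rcases Nat.eq_zero_or_pos m with rfl | hm0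
  · rw [Nat.sub_zero, zero_pow (by omega), Nat.mul_zero]
    exact Nat.zero_le _
  by_cases hA : 36 * L * m ^ 2 ≤ n ^ 2
  · calc (36 * L) ^ n * m ^ (2 * (n - m)) ≤ (36 * L) ^ n * m ^ (2 * n) :=
          Nat.mul_le_mul_left _ (Nat.pow_le_pow_right hm0 (by omega))
      _ = (36 * L * m ^ 2) ^ n := by rw [mul_pow (36 * L), ← pow_mul m 2 n]
      _ ≤ (n ^ 2) ^ n := Nat.pow_le_pow_left hA n
      _ = n ^ (2 * n) := by rw [← pow_mul]
  · push Not at hA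
    obtain ⟨a, ha⟩ : ∃ a, a = Nat.log 2 (36 * L) + 1 := ⟨_, rfl⟩
    obtain ⟨h1, h2⟩ := log_bound ha hL2
    have h3 : 2 ^ (L - 1) ≤ n := by
      rw [hL, Nat.add_sub_cancel]
      exact Nat.pow_log_le_self 2 (by omega)
    have h4 : a * n ≤ (L - 1) * (2 * m) := by
      have h5 : (a * n) ^ 2 ≤ ((L - 1) * (2 * m)) ^ 2 := by
        calc (a * n) ^ 2 = a ^ 2 * n ^ 2 := by ring
          _ ≤ a ^ 2 * (36 * L * m ^ 2) := Nat.mul_le_mul_left _ hA.le
          _ = (9 * a ^ 2 * L) * (4 * m ^ 2) := by ring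
          _ ≤ (L - 1) ^ 2 * (4 * m ^ 2) := Nat.mul_le_mul_right _ h2
          _ = ((L - 1) * (2 * m)) ^ 2 := by ring
      exact (Nat.pow_le_pow_iff_left (by norm_num)).1 h5
    calc (36 * L) ^ n * m ^ (2 * (n - m)) ≤ (2 ^ a) ^ n * n ^ (2 * (n - m)) :=
          Nat.mul_le_mul (Nat.pow_le_pow_left h1.le n) (Nat.pow_le_pow_left hm _)
      _ = 2 ^ (a * n) * n ^ (2 * (n - m)) := by rw [← pow_mul]
      _ ≤ 2 ^ ((L - 1) * (2 * m)) * n ^ (2 * (n - m)) :=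
          Nat.mul_le_mul_right _ (Nat.pow_le_pow_right (by norm_num) h4)
      _ = (2 ^ (L - 1)) ^ (2 * m) * n ^ (2 * (n - m)) := by rw [← pow_mul]
      _ ≤ n ^ (2 * m) * n ^ (2 * (n - m)) :=
          Nat.mul_le_mul_right _ (Nat.pow_le_pow_left h3 _)
      _ = n ^ (2 * n) := by
          rw [← pow_add]
          congr 1
          omega

theorem bell_num : ∀ᶠ n : ℕ in Filter.atTop, (∑ m ∈ Finset.range (n + 1),
    n.choose m * m ^ (n - m)) ^ 2 * (Nat.log 2 n + 1) ^ n ≤ n.factorial ^ 2 := by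
  obtain ⟨c, hc⟩ : ∃ c : ℕ, c = 20000 := ⟨_, rfl⟩
  filter_upwards [Filter.eventually_ge_atTop (2 ^ c)] with n hn
  have hn1 : 1 ≤ n := le_trans Nat.one_le_two_pow hn
  have h0 : c ≤ Nat.log 2 n := (Nat.le_log_iff_pow_le (by norm_num) (by omega)).2 hn
  obtain ⟨L, hL⟩ : ∃ L, L = Nat.log 2 n + 1 := ⟨_, rfl⟩
  have hL2 : 20000 ≤ L := by omega
  obtain ⟨m, hm, hmax⟩ := Finset.exists_max_image (Finset.range (n + 1))
    (fun m => m ^ (n - m)) ⟨0, by simp⟩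
  have hmn : m ≤ n := by
    have := Finset.mem_range.1 hm
    omega
  have h1 : ∑ m ∈ Finset.range (n + 1), n.choose m * m ^ (n - m) ≤ 2 ^ n * m ^ (n - m) := by
    calc ∑ m ∈ Finset.range (n + 1), n.choose m * m ^ (n - m)
        ≤ ∑ i ∈ Finset.range (n + 1), n.choose i * m ^ (n - m) :=
          Finset.sum_le_sum (fun i hi => Nat.mul_le_mul_left _ (hmax i hi))
      _ = 2 ^ n * m ^ (n - m) := by rw [← Finset.sum_mul, Nat.sum_range_choose]
  have h2 := term_le hL hL2 hn1 hmn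
  have h3 := Pool.Agent.Helper83.FM.pow_self_le n
  rw [← hL]
  have h4 : 36 ^ n * ((∑ m ∈ Finset.range (n + 1), n.choose m * m ^ (n - m)) ^ 2 * L ^ n) ≤
      36 ^ n * n.factorial ^ 2 := by
    calc 36 ^ n * ((∑ m ∈ Finset.range (n + 1), n.choose m * m ^ (n - m)) ^ 2 * L ^ n)
        ≤ 36 ^ n * ((2 ^ n * m ^ (n - m)) ^ 2 * L ^ n) :=
          Nat.mul_le_mul_left _ (Nat.mul_le_mul_right _ (Nat.pow_le_pow_left h1 2))
      _ = 4 ^ n * ((36 * L) ^ n * m ^ (2 * (n - m))) := by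
          rw [mul_pow (2 ^ n), ← pow_mul, ← pow_mul, mul_pow 36 L, mul_comm n 2, pow_mul 2 2 n,
            mul_comm (n - m) 2]
          norm_num
          ring
      _ ≤ 4 ^ n * n ^ (2 * n) := Nat.mul_le_mul_left _ h2
      _ = 4 ^ n * (n ^ n) ^ 2 := by rw [← pow_mul, mul_comm n 2]
      _ ≤ 4 ^ n * (3 ^ n * n.factorial) ^ 2 :=
          Nat.mul_le_mul_left _ (Nat.pow_le_pow_left h3 2)
      _ = 36 ^ n * n.factorial ^ 2 := by
          rw [mul_pow, ← pow_mul, mul_comm n 2, pow_mul 3 2 n, ← mul_assoc, ← mul_pow]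
          norm_num
  exact Nat.le_of_mul_le_mul_left h4 (by positivity)

end Pool.Agent.Helper58.AJ
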