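import Pool.Agent.Helper53.AJ.Defs
import Pool.Agent.Helper58.MC.Upper

/-!
# Growth of the number of models: the decomposition and the number of structures
-/

set_option autoImplicit false

namespace Pool.Agent.Helper53.AJ

open FirstOrder Pool.Agent.Helper20.Spectra Pool.Agent.Helper58.QD Pool.Agent.Helper14.SS
open Pool.Agent.Helper31.QD (Au)
open Pool.Agent.Helper40.MCM
open Pool.Agent.Helper40.MC (FinAP)

variable {S : Type} {ar : S → ℕ}

/-- E: the number of structures with a decomposition -/
theorem count_dec [Finite S] (k C : ℕ) (hk : 1 ≤ k) : ∃ D : ℕ, ∀ n, 1 ≤ n →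
    Nat.card {R : Interp S ar (Fin n) // Dec R k C} ^ k ≤ D ^ n * n ^ ((k - 1) * n) := by
  refine Pool.Agent.Helper58.MC.upper (fun n R => Dec R k C) C k hk (fun n R h => ?_)
  obtain ⟨q, t, v, hv, ht, hm⟩ := h
  refine ⟨Fin C, inferInstance, q, t, fun f p => v ⟨f, p⟩, ∅, by rw [Fintype.card_fin], by simp,
    ht, fun f => (hm f).1, fun f g a b hab => ?_, fun x => ?_, fun f => (hm f).2⟩
  · exact congrArg Sigma.fst (hv.1 hab)
  · obtain ⟨⟨f, a⟩, rfl⟩ := hv.2 x
    exact Or.inr ⟨f, a, rfl⟩

lemma au_of_fix {V : Type} (R : Interp S ar V) {σ : Equiv.Perm V} (h : ∀ z, σ z = z) :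
    Au R σ := by
  intro s w
  have e : (σ ∘ w : Fin (ar s) → V) = w := funext fun i => h _
  rw [e]

theorem dec_of_aux {V : Type} [Finite V] {R : Interp S ar V} {k N C : ℕ}
    (hmax : ∀ {q t : ℕ} (w : Fin q × Fin t → V), Mx R k N w → ∀ {q' t' : ℕ}
      (u : Fin q' × Fin t' → V), Big R k N u → (Set.range u ∩ Set.range w).Nonempty →
      Set.range u ⊆ Set.range w)
    (hex : ∀ {q t : ℕ} (u : Fin q × Fin t → V), Big R k N u →
      ∃ (q' t' : ℕ) (w : Fin q' × Fin t' → V), Mx R k N w ∧ Set.range u ⊆ Set.range w)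
    (hk : 1 ≤ k) (hC : Nat.card (Quot (Rl R k N)) ≤ C) : Dec R k C := by
  classical
  have hfin : Finite (Quot (Rl R k N)) := inferInstance
  have := Fintype.ofFinite (Quot (Rl R k N))
  obtain ⟨e⟩ : Nonempty (Quot (Rl R k N) ↪ Fin C) :=
    Function.Embedding.nonempty_of_card_le (by
      rwa [Fintype.card_fin, ← Nat.card_eq_fintype_card])
  have h : ∀ c : Fin C, ∃ (q t : ℕ) (w : Fin q × Fin t → V), Hm R w ∧ t ≤ k ∧
      ∀ z, z ∈ Set.range w ↔ e (Quot.mk _ z) = c := by
    intro c
    by_cases hc : ∃ z, e (Quot.mk _ z) = c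
    · obtain ⟨z, hz⟩ := hc
      by_cases hb : ∃ (q t : ℕ) (u : Fin q × Fin t → V), Big R k N u ∧ z ∈ Set.range u
      · obtain ⟨q, t, u, hu, hzu⟩ := hb
        obtain ⟨q', t', w, hw, huw⟩ := hex u hu
        refine ⟨q', t', w, hw.1.1.1, hw.1.2.1, fun z' => ?_⟩
        constructor
        · intro hz'
          rw [← hz]
          exact congrArg e (Quot.sound ⟨q', t', w, hw.1, hz', huw hzu⟩)
        · intro hz'
          rw [← hz] at hz'
          have h1 := e.injective hz'
          have hinv : ∀ a b, Rl R k N a b → (a ∈ Set.range w) = (b ∈ Set.range w) := by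
            rintro a b ⟨q1, t1, u1, hu1, ha, hb⟩
            apply propext
            constructor
            · intro h2
              exact hmax w hw u1 hu1 ⟨a, ha, h2⟩ hb
            · intro h2
              exact hmax w hw u1 hu1 ⟨b, hb, h2⟩ ha
          have h2 : (z' ∈ Set.range w) = (z ∈ Set.range w) :=
            congrArg (Quot.lift (fun a => a ∈ Set.range w) hinv) h1
          rw [h2]
          exact huw hzu
      · refine ⟨1, 1, fun _ => z, ⟨?_, ?_⟩, hk, fun z' => ?_⟩
        · intro a b _
          exact Subsingleton.elim a b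
        · intro π σ h1 h2
          refine au_of_fix R (fun x => ?_)
          by_cases hx : z = x
          · rw [← hx]
            exact h1 0 0
          · exact h2 x (fun _ => hx)
        · constructor
          · rintro ⟨_, rfl⟩
            exact hz
          · intro hz'
            rw [← hz] at hz'
            have h1 := e.injective hz'
            have hinv : ∀ a b, Rl R k N a b → (a = z) = (b = z) := by
              rintro a b ⟨q1, t1, u1, hu1, ha, hb'⟩
              apply propext
              constructor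
              · rintro rfl
                exact absurd ⟨q1, t1, u1, hu1, ha⟩ hb
              · rintro rfl
                exact absurd ⟨q1, t1, u1, hu1, hb'⟩ hb
            have h2 : (z' = z) = (z = z) := congrArg (Quot.lift (fun a => a = z) hinv) h1
            have h3 : z' = z := by rw [h2]
            exact ⟨(0, 0), h3.symm⟩
    · push Not at hc
      refine ⟨0, 0, fun p => p.1.elim0, ⟨fun a => a.1.elim0, fun π σ _ h2 => ?_⟩, by omega,
        fun z => ?_⟩
      · exact au_of_fix R (fun x => h2 x (fun p => p.1.elim0))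
      · constructor
        · rintro ⟨p, _⟩
          exact p.1.elim0
        · intro hz
          exact absurd hz (hc z)
  choose q t w h1 h2 h3 using h
  refine ⟨q, t, fun a => w a.1 a.2, ⟨?_, ?_⟩, h2, h1⟩
  · rintro ⟨c, p⟩ ⟨c', p'⟩ he
    have he' : w c p = w c' p' := he
    have g1 := (h3 c (w c p)).1 ⟨p, rfl⟩
    have g2 := (h3 c' (w c p)).1 ⟨p', he'.symm⟩
    have g3 : c = c' := g1.symm.trans g2
    subst g3
    rw [(h1 c).1 he']
  · intro z
    obtain ⟨p, hp⟩ := (h3 (e (Quot.mk _ z)) z).2 rfl
    exact ⟨⟨_, p⟩, hp⟩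

end Pool.Agent.Helper53.AJ
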